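import Pool.Agent.helper61.CSW.W.SpecW

/-!
# Row csw:NPE (MP_70a088_an): two auxiliary repelling fixed points outside the singular values
-/

set_option autoImplicit false

open Complex Metric Set Filter Topology MeasureTheory
open YPPS (fd fdd pre TT CV IsCyc rho Exact)
open MPS (BB)
open Pool.Agent.helper98.ILF (juliaSet fatouSet)

noncomputable section

open CSS (SE SV JJ)

namespace YW

theorem NPE (hFX2 : FX2_stmt) : NPE_stmt := by
  intro f
  have hinf : ({z : ℂ | f.eval z = z ∧ 1 < ‖fd f z‖} \ (↑(SV f) : Set ℂ)).Infinite :=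
    (hFX2 f).sdiff (SV f).finite_toSet
  obtain ⟨p, hp⟩ := hinf.nonempty
  have hinf2 := hinf.sdiff (Set.finite_singleton p)
  obtain ⟨q, hq⟩ := hinf2.nonempty
  obtain ⟨⟨⟨hq1, hq2⟩, hq3⟩, hq4⟩ := hq
  obtain ⟨⟨hp1, hp2⟩, hp3⟩ := hp
  exact ⟨⟨p, q, fun h => hq4 (by simp [h]), hp1, hq1, hp2, hq2, fun h => hp3 (by exact_mod_cast h), fun h => hq3 (by exact_mod_cast h)⟩⟩

end YW

end
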